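import Pool.Agent.N928.FG.Stm

/-!
# Fourier representation of the lazy walk on `ℤ`
-/

set_option autoImplicit false

namespace Pool.Agent.N285.FG

open Pool.Agent.N928.FG

/-- the integral of `cos (2 π k x)` over a period -/
lemma int_cos (k : ℤ) :
    (∫ x in (0:ℝ)..1, Real.cos (2 * Real.pi * k * x)) = if k = 0 then 1 else 0 := by
  by_cases hk : k = 0
  · subst hk; simp
  · rw [if_neg hk]
    have hc : (2 * Real.pi * (k : ℝ)) ≠ 0 := by
      have := Real.pi_ne_zero
      have hk' : (k : ℝ) ≠ 0 := by exact_mod_cast hk
      positivity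
    rw [intervalIntegral.integral_comp_mul_left (f := Real.cos) hc, integral_cos]
    have : Real.sin (2 * Real.pi * (k : ℝ) * 1) = 0 := by
      have h := Real.sin_int_mul_pi (2 * k)
      push_cast at h
      rw [show 2 * Real.pi * (k : ℝ) * 1 = 2 * (k : ℝ) * Real.pi by ring]
      exact h
    rw [this]; simp

/-- Fourier representation at every site -/
lemma key (β : ℝ) (n : ℕ) : ∀ k : ℤ, s β n k =
    ∫ x in (0:ℝ)..1, (1 - β + β * Real.cos (2 * Real.pi * x)) ^ n *
      Real.cos (2 * Real.pi * k * x) := by
  induction n with
  | zero =>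
    intro k
    have h := int_cos k
    simp only [pow_zero, one_mul]
    rw [h]
    rfl
  | succ n ih =>
    intro k
    have e : s β (n + 1) k = (1 - β) * s β n k + β / 2 * (s β n (k - 1) + s β n (k + 1)) := rfl
    have hI : ∀ j : ℤ, IntervalIntegrable (fun x : ℝ =>
        (1 - β + β * Real.cos (2 * Real.pi * x)) ^ n * Real.cos (2 * Real.pi * j * x))
        MeasureTheory.volume 0 1 := by
      intro j
      apply Continuous.intervalIntegrable
      fun_prop
    rw [e, ih k, ih (k - 1), ih (k + 1), ← intervalIntegral.integral_add (hI _) (hI _),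
      ← intervalIntegral.integral_const_mul, ← intervalIntegral.integral_const_mul,
      ← intervalIntegral.integral_add ((hI k).const_mul _)
        (((hI (k - 1)).add (hI (k + 1))).const_mul _)]
    apply intervalIntegral.integral_congr
    intro x _
    simp only
    have h1 : Real.cos (2 * Real.pi * ((k - 1 : ℤ) : ℝ) * x) =
        Real.cos (2 * Real.pi * k * x) * Real.cos (2 * Real.pi * x) +
        Real.sin (2 * Real.pi * k * x) * Real.sin (2 * Real.pi * x) := by
      rw [← Real.cos_sub]; congr 1; push_cast; ring
    have h2 : Real.cos (2 * Real.pi * ((k + 1 : ℤ) : ℝ) * x) =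
        Real.cos (2 * Real.pi * k * x) * Real.cos (2 * Real.pi * x) -
        Real.sin (2 * Real.pi * k * x) * Real.sin (2 * Real.pi * x) := by
      rw [← Real.cos_add]; congr 1; push_cast; ring
    rw [h1, h2]
    ring

theorem t_INT : S_INT := by
  intro β _ _ n
  have h := key β n 0
  rw [h]
  apply intervalIntegral.integral_congr
  intro x _
  simp

end Pool.Agent.N285.FG
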